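import Pool.Agent.Webs.Translate

/-!
# Linking one source vertex while keeping a web unhindered

We answer Q1 of MP_f2e29e_co positively, for webs of any cardinality: if `Γ = (G, A, B)` is an
unhindered web and `a ∈ A`, then there is an `a`–`B` path `P` such that `Γ - P` is unhindered.

Outline of the proof. Call a set `F` of vertices admissible if `Γ - F` is unhindered and let
`cl F` be the set of vertices roofed by some wave of `Γ - F` (there is one wave of `Γ - F` doing
this for all of them). One finite augmentation shows that a vertex outside `cl F` can be added to
an admissible `F`, that `cl` is monotone on admissible sets (for vertices outside `A`), and `cl`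
is idempotent and has the anti-exchange property. Let `Z` be a maximal set containing `a`,
connected from `a`, with `Z ∩ A = {a}`, all of whose finite subsets containing `a` are admissible.
If `Z` meets `B` we take `P` inside `Z`. Otherwise all out-neighbours of `Z` lie in closures of
finite subsets of `Z`. Let `X` be the set of the extreme vertices of `Z`, those `z` which are in
`cl F` for no finite `F ⊆ Z \ {z}` containing `a`. Anti-exchange, applied along a greedy sequence
in a countable subset of `Z`, shows that the maximal wave of `Γ - X` roofs the closures of all
finite subsets of `Z`. Hence it roofs `Z` and all out-neighbours of `Z`, so it is a wave of `Γ`;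
it misses `a`, a contradiction.
-/

universe u

namespace Pool.Agent.Results.MP_f2e29e_co.LinkOneVertex

open Pool.WebLink

/-- For every unhindered web `Γ = (G, A, B)`, of any cardinality, and every `a ∈ A` there is an
`a`–`B` path `P` such that `Γ - P` is unhindered. -/
theorem result : ∀ (V : Type u) (Γ : Web V), ¬ Γ.Hindered → ∀ a ∈ Γ.A,
    ∃ P : Γ.Path, P.init = a ∧ P.IsAB ∧ ¬ (Γ.minus P.verts).Hindered :=
  fun _ _ hΓ _ ha => link hΓ ha

end Pool.Agent.Results.MP_f2e29e_co.LinkOneVertex
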